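import Pool.Agent.KS6_99.EN.Cases

/-!
# MP_9bf48e_al: closedness of irreducible elementary nets over arbitrary domains

Let `R` be an integral domain contained in a field `K` (no relation between `K` and the field of
fractions of `R` is assumed) and let `n ≥ 2`. All irreducible elementary nets of order `n` over
`K` consisting of `R`-modules are closed if and only if one of the following holds:

* `K = R`;
* `n ≥ 3`, `R` is a field and `K` is algebraic over `R`;
* `n ≥ 3`, `K` is the field of fractions of `R`, and `R` is a Pruefer domain of Krull dimension
  at most one.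

In the situation of the question (`R` a principal ideal domain, `k` its field of fractions, `K`
algebraic over `k`) all these nets are closed if and only if `K = R`, or `n ≥ 3` and (`K = k` or
`R = k`). So the answer to the question is negative, for every `n`.

For nets of arbitrary additive subgroups of a field `K`: all irreducible elementary nets of order
`n` are closed if and only if `K` is a finite prime field, or `n ≥ 3` and `K` is the field of
rational numbers or an algebraic extension of a finite prime field.

The key step: for `n ≥ 3` the nets are all closed iff `z ∈ R + u R[z, u]` for all `z, u ∈ K`,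
`u ≠ 0`.
-/

set_option autoImplicit false

namespace Pool.Agent.Results.MP_9bf48e_al.AllDomains

open Pool.Agent.KS6_99.EN

universe u v w

/-- **Main result**: (1) integral domains, (2) principal ideal domains, (3) additive subgroups. -/
theorem result :
    (∀ (R : Type u) (K : Type v) [CommRing R] [IsDomain R] [Field K] [Algebra R K]
        [FaithfulSMul R K] (n : ℕ), 2 ≤ n →
      ((∀ N : ElementaryNet R K n, N.Irreducible → N.Closed) ↔
        Function.Surjective (algebraMap R K) ∨ (3 ≤ n ∧
          ((IsField R ∧ Algebra.IsAlgebraic R K) ∨
            (IsFractionRing R K ∧ Ring.DimensionLEOne R ∧ IsPruferDomain R))))) ∧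
    (∀ (R : Type u) (k : Type w) (K : Type v) [CommRing R] [IsDomain R] [IsPrincipalIdealRing R]
        [Field k] [Algebra R k] [IsFractionRing R k] [Field K] [Algebra k K] [Algebra R K]
        [IsScalarTower R k K] [Algebra.IsAlgebraic k K] (n : ℕ), 2 ≤ n →
      ((∀ N : ElementaryNet R K n, N.Irreducible → N.Closed) ↔
        Function.Surjective (algebraMap R K) ∨
          (3 ≤ n ∧ (IsField R ∨ Function.Surjective (algebraMap k K))))) ∧
    ∀ (K : Type v) [Field K] (n : ℕ), 2 ≤ n →
      ((∀ N : ElementaryNet ℤ K n, N.Irreducible → N.Closed) ↔
        (∃ p : ℕ, p.Prime ∧ Nonempty (K ≃+* ZMod p)) ∨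
          (3 ≤ n ∧ (Nonempty (K ≃+* ℚ) ∨ ∃ (p : ℕ) (_ : Fact p.Prime) (_ : Algebra (ZMod p) K),
            Algebra.IsAlgebraic (ZMod p) K))) :=
  ⟨fun R K _ _ _ _ _ n hn => all_closed_iff R K n hn,
    fun R k K _ _ _ _ _ _ _ _ _ _ _ n hn => all_closed_iff_pid R k K n hn,
    fun K _ n hn => all_closed_iff_additive K n hn⟩

end Pool.Agent.Results.MP_9bf48e_al.AllDomains
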